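import Pool.Agent.Lib.MP_4d8715_gt.KR.R.RO

/-! # Names of reals in a complete Boolean algebra, the properties (TC) and (KL) -/

universe u

namespace Pool.Agent.Lib.MP_4d8715_gt.KR

variable {B : Type u} [CompleteBooleanAlgebra B]

/-- the value of an equivalence -/
def iffB (a b : B) : B := (a ⇨ b) ⊓ (b ⇨ a)

/-- a name of a function from `ℕ` to `ℕ`: `l k v` is the value of `l k = v` -/
structure IsFn (l : ℕ → ℕ → B) : Prop where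
  total : ∀ k, ⨆ v, l k v = ⊤
  single : ∀ k v v', v ≠ v' → l k v ⊓ l k v' = ⊥

/-- the value of the equality of two names of subsets of `ℕ` -/
def eqv (x y : ℕ → B) : B := ⨅ j, iffB (x j) (y j)

/-- `B` satisfies the countable chain condition -/
def CCC (B : Type u) [CompleteBooleanAlgebra B] : Prop :=
  ∀ s : Set B, (∀ a ∈ s, a ≠ ⊥) → (∀ a ∈ s, ∀ b ∈ s, a ≠ b → a ⊓ b = ⊥) → s.Countable

/-- (TC) in the Boolean-valued model: `X x` is the value of `x ∈ X` -/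
def TCB (B : Type u) [CompleteBooleanAlgebra B] : Prop :=
  ∀ (X : (ℕ → B) → B) (p : B),
    (∀ l : ℕ → ℕ → B, IsFn l → ∃ (b : ℕ → B) (S : ℕ → ℕ → ℕ → B),
      (∀ N, p ≤ ⨆ k, ⨆ (_ : N < k), b k) ∧
      ∀ x, p ⊓ X x ≤ ⨆ m : ℕ, ⨅ k, ⨅ (_ : m < k), ⨅ v,
        (b k ⊓ l k v) ⇨ ⨆ i, ⨆ (_ : i < k), ⨅ j, ⨅ (_ : j < v), iffB (x j) (S k i j)) →
    ∃ S : ℕ → ℕ → ℕ → B, ∀ x, p ⊓ X x ≤
      ⨆ m : ℕ, ⨅ L, ⨅ (_ : m < L), ⨆ i, ⨆ (_ : i < L), ⨅ j, ⨅ (_ : j < L), iffB (x j) (S L i j)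

/-- (KL) in the Boolean-valued model: a family of names of infinite subsets of `ℕ`, indexed by the
countable ordinals -/
def KLB (B : Type u) [CompleteBooleanAlgebra B] : Prop :=
  ∃ c : Ordinal.{0} → ℕ → B, (∀ a N, ⨆ j, ⨆ (_ : N < j), c a j = ⊤) ∧
    ∀ g : ℕ → ℕ → B, IsFn g → ∃ ξ : Ordinal.{0}, ξ < Ordinal.omega 1 ∧
      ∀ a, ξ ≤ a → a < Ordinal.omega 1 → ∀ m : ℕ,
        ⨆ k, ⨆ (_ : m < k), ⨆ w, g k w ⊓ ⨅ j, ⨅ (_ : k < j), ⨅ (_ : j ≤ w), (c a j)ᶜ = ⊤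

end Pool.Agent.Lib.MP_4d8715_gt.KR
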