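import Mathlib

/-! # The complete Boolean algebra of the regular open subsets of a preorder (module R-RO) -/

universe u

namespace Pool.Agent.Lib.MP_4d8715_gt.KR

/-- regular open subsets of the preorder `P`: closed downwards, and `p` belongs to it if a dense set
of the elements below `p` does -/
@[ext]
structure RO (P : Type u) [Preorder P] where
  /-- the set -/
  carrier : Set P
  down : ∀ p ∈ carrier, ∀ q, q ≤ p → q ∈ carrier
  reg : ∀ p, (∀ q, q ≤ p → ∃ r, r ≤ q ∧ r ∈ carrier) → p ∈ carrier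

namespace RO

variable {P : Type u} [Preorder P]

/-- the regular open set generated by a set `s`: all `p` such that densely below `p` we are below an
element of `s` -/
def gen (s : Set P) : RO P where
  carrier := {p | ∀ q, q ≤ p → ∃ r, r ≤ q ∧ ∃ t ∈ s, r ≤ t}
  down := by
    intro p hp q hq r hr
    exact hp r (hr.trans hq)
  reg := by
    intro p hp q hq
    obtain ⟨r, hr, hr2⟩ := hp q hq
    obtain ⟨s', hs, hs2⟩ := hr2 r le_rfl
    exact ⟨s', hs.trans hr, hs2⟩

private theorem subset_gen {s : Set P} {p : P} (hp : p ∈ s) : p ∈ (gen s).carrier :=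
  fun q hq => ⟨q, le_rfl, p, hp, hq⟩

private theorem gen_subset {s : Set P} {a : RO P} (h : ∀ p ∈ s, p ∈ a.carrier) {p : P}
    (hp : p ∈ (gen s).carrier) : p ∈ a.carrier := by
  refine a.reg p fun q hq => ?_
  obtain ⟨r, hr, t, ht, hrt⟩ := hp q hq
  exact ⟨r, hr, a.down t (h t ht) r hrt⟩

instance : PartialOrder (RO P) where
  le a b := a.carrier ⊆ b.carrier
  le_refl a := Set.Subset.refl _
  le_trans a b c h h' := Set.Subset.trans h h'
  le_antisymm a b h h' := RO.ext (Set.Subset.antisymm h h')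

noncomputable instance : CompleteBooleanAlgebra (RO P) where
  toPartialOrder := inferInstance
  sup a b := gen (a.carrier ∪ b.carrier)
  le_sup_left := by
    intro a b p hp
    exact subset_gen (Or.inl hp)
  le_sup_right := by
    intro a b p hp
    exact subset_gen (Or.inr hp)
  sup_le := by
    intro a b c hac hbc p hp
    refine gen_subset ?_ hp
    rintro q (hq | hq)
    · exact hac hq
    · exact hbc hq
  inf a b := ⟨a.carrier ∩ b.carrier, fun p hp q hq => ⟨a.down p hp.1 q hq, b.down p hp.2 q hq⟩,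
    fun p hp => ⟨a.reg p fun q hq => (hp q hq).imp fun _ h => ⟨h.1, h.2.1⟩,
      b.reg p fun q hq => (hp q hq).imp fun _ h => ⟨h.1, h.2.2⟩⟩⟩
  inf_le_left := by
    intro a b p hp
    exact hp.1
  inf_le_right := by
    intro a b p hp
    exact hp.2
  le_inf := by
    intro a b c hab hac p hp
    exact ⟨hab hp, hac hp⟩
  sSup s := gen (⋃ a ∈ s, a.carrier)
  isLUB_sSup := by
    intro s
    constructor
    · intro a ha p hp
      exact subset_gen (Set.mem_biUnion ha hp)
    · intro b hb p hp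
      refine gen_subset ?_ hp
      intro q hq
      obtain ⟨a, ha, hqa⟩ := Set.mem_iUnion₂.1 hq
      exact hb ha hqa
  sInf s := ⟨⋂ a ∈ s, a.carrier, by
    intro p hp q hq
    rw [Set.mem_iInter₂] at hp ⊢
    exact fun a ha => a.down p (hp a ha) q hq, by
    intro p hp
    rw [Set.mem_iInter₂]
    intro a ha
    refine a.reg p fun q hq => ?_
    obtain ⟨r, hr, hr2⟩ := hp q hq
    exact ⟨r, hr, Set.mem_iInter₂.1 hr2 a ha⟩⟩
  isGLB_sInf := by
    intro s
    constructor
    · intro a ha p hp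
      exact Set.mem_iInter₂.1 hp a ha
    · intro b hb p hp
      exact Set.mem_iInter₂.2 fun a ha => hb ha hp
  top := ⟨Set.univ, fun _ _ _ _ => trivial, fun _ _ => trivial⟩
  le_top := by
    intro a p _
    exact trivial
  bot := ⟨∅, fun _ h => h.elim, fun p h => (h p le_rfl).elim fun _ h => h.2.elim⟩
  bot_le := by
    intro a p hp
    exact hp.elim
  le_sup_inf := by
    intro x y z p hp q hq
    obtain ⟨r, hr, t, ht, hrt⟩ := hp.1 q hq
    rcases ht with ht | ht
    · exact ⟨r, hr, t, Or.inl ht, hrt⟩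
    · obtain ⟨r', hr', t', ht', hrt'⟩ := hp.2 r (hr.trans hq)
      rcases ht' with ht' | ht'
      · exact ⟨r', hr'.trans hr, t', Or.inl ht', hrt'⟩
      · exact ⟨r', hr'.trans hr, r', Or.inr ⟨y.down t ht r' (hr'.trans hrt),
          z.down t' ht' r' hrt'⟩, le_rfl⟩
  compl a := ⟨{p | ∀ q, q ≤ p → q ∉ a.carrier}, by
    intro p hp q hq r hr
    exact hp r (hr.trans hq), by
    intro p hp q hq hqa
    obtain ⟨r, hr, hr2⟩ := hp q hq
    exact hr2 r le_rfl (a.down q hqa r hr)⟩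
  inf_compl_le_bot := by
    intro a p hp
    exact (hp.2 p le_rfl hp.1).elim
  top_le_sup_compl := by
    intro a p _ q _
    by_cases h : ∃ r, r ≤ q ∧ r ∈ a.carrier
    · obtain ⟨r, hr, hra⟩ := h
      exact ⟨r, hr, r, Or.inl hra, le_rfl⟩
    · exact ⟨q, le_rfl, q, Or.inr (fun r hr hra => h ⟨r, hr, hra⟩), le_rfl⟩

theorem le_def {a b : RO P} : a ≤ b ↔ ∀ p ∈ a.carrier, p ∈ b.carrier := Iff.rfl

theorem mem_top (p : P) : p ∈ (⊤ : RO P).carrier := trivial

theorem mem_bot (p : P) : p ∉ (⊥ : RO P).carrier := fun h => h.elim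

theorem mem_inf {a b : RO P} {p : P} :
    p ∈ (a ⊓ b).carrier ↔ p ∈ a.carrier ∧ p ∈ b.carrier := Iff.rfl

theorem mem_compl {a : RO P} {p : P} : p ∈ (aᶜ).carrier ↔ ∀ q, q ≤ p → q ∉ a.carrier := Iff.rfl

theorem mem_sup {a b : RO P} {p : P} :
    p ∈ (a ⊔ b).carrier ↔ ∀ q, q ≤ p → ∃ r, r ≤ q ∧ (r ∈ a.carrier ∨ r ∈ b.carrier) := by
  constructor
  · intro hp q hq
    obtain ⟨r, hr, t, ht, hrt⟩ := hp q hq
    rcases ht with ht | ht
    · exact ⟨r, hr, Or.inl (a.down t ht r hrt)⟩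
    · exact ⟨r, hr, Or.inr (b.down t ht r hrt)⟩
  · intro hp q hq
    obtain ⟨r, hr, hr2⟩ := hp q hq
    exact ⟨r, hr, r, hr2, le_rfl⟩

theorem mem_himp {a b : RO P} {p : P} :
    p ∈ (a ⇨ b).carrier ↔ ∀ q, q ≤ p → q ∈ a.carrier → q ∈ b.carrier := by
  rw [himp_eq, mem_sup]
  constructor
  · intro hp q hq hqa
    refine b.reg q fun r hr => ?_
    obtain ⟨s, hs, hs2⟩ := hp r (hr.trans hq)
    rcases hs2 with h | h
    · exact ⟨s, hs, h⟩
    · exact (h s le_rfl (a.down q hqa s (hs.trans hr))).elim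
  · intro hp q hq
    by_cases h : ∃ r, r ≤ q ∧ r ∈ a.carrier
    · obtain ⟨r, hr, hra⟩ := h
      exact ⟨r, hr, Or.inl (hp r (hr.trans hq) hra)⟩
    · exact ⟨q, le_rfl, Or.inr (fun r hr hra => h ⟨r, hr, hra⟩)⟩

theorem mem_iInf {ι : Sort*} {f : ι → RO P} {p : P} :
    p ∈ (⨅ i, f i).carrier ↔ ∀ i, p ∈ (f i).carrier := by
  constructor
  · intro hp i
    exact (iInf_le f i) hp
  · intro hp
    refine Set.mem_iInter₂.2 ?_
    rintro _ ⟨i, rfl⟩
    exact hp i

theorem mem_iSup {ι : Sort*} {f : ι → RO P} {p : P} :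
    p ∈ (⨆ i, f i).carrier ↔ ∀ q, q ≤ p → ∃ r, r ≤ q ∧ ∃ i, r ∈ (f i).carrier := by
  constructor
  · intro hp q hq
    obtain ⟨r, hr, t, ht, hrt⟩ := hp q hq
    obtain ⟨a, ha, hta⟩ := Set.mem_iUnion₂.1 ht
    obtain ⟨i, rfl⟩ := ha
    exact ⟨r, hr, i, (f i).down t hta r hrt⟩
  · intro hp q hq
    obtain ⟨r, hr, i, hi⟩ := hp q hq
    exact ⟨r, hr, r, Set.mem_biUnion ⟨i, rfl⟩ hi, le_rfl⟩

theorem nonempty_of_ne_bot {a : RO P} (h : a ≠ ⊥) : ∃ p, p ∈ a.carrier := by
  by_contra hc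
  apply h
  refine le_antisymm ?_ bot_le
  intro p hp
  exact (hc ⟨p, hp⟩).elim

/-- the regular open set generated by one element -/
theorem mem_gen_singleton {p q : P} :
    q ∈ (gen {p} : RO P).carrier ↔ ∀ r, r ≤ q → ∃ t, t ≤ r ∧ t ≤ p := by
  constructor
  · intro h r hr
    obtain ⟨t, ht, s, hs, hts⟩ := h r hr
    rw [Set.mem_singleton_iff] at hs
    exact ⟨t, ht, hs ▸ hts⟩
  · intro h r hr
    obtain ⟨t, ht, htp⟩ := h r hr
    exact ⟨t, ht, p, rfl, htp⟩

theorem gen_le {p : P} {a : RO P} : gen {p} ≤ a ↔ p ∈ a.carrier := by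
  constructor
  · intro h
    exact h (subset_gen rfl)
  · intro h q hq
    refine gen_subset ?_ hq
    rintro r rfl
    exact h

instance [Nonempty P] : Nontrivial (RO P) := by
  refine ⟨⟨⊥, ⊤, fun h => ?_⟩⟩
  obtain ⟨p⟩ := (inferInstance : Nonempty P)
  exact mem_bot p (by rw [h]; exact mem_top p)

end RO

end Pool.Agent.Lib.MP_4d8715_gt.KR
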