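import Pool.Agent.Lib.MP_4d8715_gt.KR.R.Val
import Pool.Agent.Lib.MP_4d8715_gt.KR.C.Main

/-! # (CCC), (TC) and (KL) in the Boolean algebra of the forcing notion (module R-FACTS)

`ccc_RO`: pick a condition in every member of `s`, apply `ccc ⊤`. `tcb_RO`: `TC_cond` with `X' x p := p ∈ (P ⊓ X (fun j => vl (x j))).carrier` and the
conditions below `p0`, for every `p0 ∈ P.carrier`; or with `p0` replaced by the requirement `p ∈ P` built into `X'` and `p0 := Cond.triv`
(every condition is `≤ Cond.triv`). The names `b`, `S` given by the hypothesis for `fun k v => vl (l k v)` are represented by terms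
(`vl_surj`). The `S` obtained is used as `fun L i j => vl (S L i j)`; a given `x : ℕ → RO Cond` is represented by terms.
Unfold with `RO.mem_iSup` etc. `klb_RO`: `c a j := vl (cGen a j)`; infinite by `ext_stem`, `frc_cGen`; `KL_cond`. -/

namespace Pool.Agent.Lib.MP_4d8715_gt.KR

theorem ccc_RO : CCC (RO Cond) := by
  intro s hs hdis
  classical
  have hne : ∀ a : s, ∃ p, p ∈ (a : RO Cond).carrier := fun a => RO.nonempty_of_ne_bot (hs a a.2)
  choose f hf using hne
  have hinc : ∀ a b : s, a ≠ b → ¬ Compat ⊤ (f a) (f b) := by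
    rintro a b hab ⟨r, hr1, hr2⟩
    have h1 : r ∈ (a : RO Cond).carrier := (a : RO Cond).down _ (hf a) r hr1
    have h2 : r ∈ (b : RO Cond).carrier := (b : RO Cond).down _ (hf b) r hr2
    have h3 : r ∈ ((a : RO Cond) ⊓ (b : RO Cond)).carrier := RO.mem_inf.mpr ⟨h1, h2⟩
    rw [hdis a a.2 b b.2 (fun h => hab (Subtype.ext h))] at h3
    exact RO.mem_bot r h3
  have hinj : Function.Injective f := by
    intro a b hab
    by_contra hne
    exact hinc a b hne ⟨f a, Le.refl _ _, by rw [hab]; exact Le.refl _ _⟩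
  have hA : (Set.range f).Countable := by
    refine ccc ⊤ _ ?_
    rintro p ⟨a, rfl⟩ q ⟨b, rfl⟩ hpq
    exact hinc a b (fun h => hpq (by rw [h]))
  have : Countable s := by
    have := hA.to_subtype
    exact Function.Injective.countable (f := fun a : s => (⟨f a, a, rfl⟩ : Set.range f))
      (fun a b h => hinj (congrArg Subtype.val h))
  exact Set.countable_coe_iff.mp this

private theorem facts_le_triv (q : Cond) : Le ⊤ q Cond.triv := by
  intro ξ _
  rw [clause_iff]
  refine ⟨⟨List.nil_prefix, List.nil_prefix⟩, ?_, ?_⟩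
  · simp [Cond.triv]
  · intro L S _ _ x hx
    simp [Cond.triv] at hx

theorem tcb_RO : TCB (RO Cond) := by
  intro X P hyp
  choose rep hrep using vl_surj
  obtain ⟨S, hS⟩ := TC_cond (fun x p => p ∈ (P ⊓ X (fun j => vl (x j))).carrier)
    (fun x p q hx hq => (P ⊓ X (fun j => vl (x j))).down p hx q hq) Cond.triv (by
      intro β l hl
      obtain ⟨b, S, hb, hS⟩ := hyp (fun k v => vl (l k v)) (isFn_vl hl)
      refine ⟨fun k => rep (b k), fun k i j => rep (S k i j), ?_⟩
      intro x p _ hx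
      have hpP : p ∈ P.carrier := (RO.mem_inf.mp hx).1
      have h1 := hS (fun j => vl (x j)) hx
      obtain ⟨q, hq, m, hm⟩ := RO.mem_iSup.mp h1 p le_rfl
      refine ⟨q, hq, m, ?_, ?_⟩
      · intro N r hr
        have hrP : r ∈ P.carrier := P.down p hpP r (le_trans (α := Cond) hr hq)
        obtain ⟨r', hr', k, hk⟩ := RO.mem_iSup.mp (hb N hrP) r le_rfl
        obtain ⟨r'', hr'', hNk, hk'⟩ := RO.mem_iSup.mp hk r' le_rfl
        refine ⟨r'', le_trans (α := Cond) hr'' hr', k, hNk, ?_⟩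
        rw [← mem_vl, hrep]
        exact hk'
      · intro k hk v r hr hbk hlk
        have h2 := RO.mem_iInf.mp (RO.mem_iInf.mp (RO.mem_iInf.mp hm k) hk) v
        have h3 : r ∈ (b k ⊓ vl (l k v)).carrier := by
          refine RO.mem_inf.mpr ⟨?_, hlk⟩
          rw [← hrep (b k)]
          exact hbk
        have h4 := RO.mem_himp.mp h2 r hr h3
        obtain ⟨r', hr', i, hi⟩ := RO.mem_iSup.mp h4 r le_rfl
        obtain ⟨r'', hr'', hik, hi'⟩ := RO.mem_iSup.mp hi r' le_rfl
        refine ⟨r'', le_trans (α := Cond) hr'' hr', i, hik, ?_⟩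
        intro j hj
        have h5 := RO.mem_iInf.mp (RO.mem_iInf.mp hi' j) hj
        rw [← mem_iffB_vl, hrep]
        exact h5)
  refine ⟨fun L i j => vl (S L i j), ?_⟩
  intro x q hq
  rw [RO.mem_iSup]
  intro q1 hq1
  have hx : (fun j => vl (rep (x j))) = x := funext fun j => hrep (x j)
  have hq1' : q1 ∈ (P ⊓ X (fun j => vl (rep (x j)))).carrier := by
    rw [hx]
    exact (P ⊓ X x).down q hq q1 hq1
  obtain ⟨q', hq', m, hm⟩ := hS (fun j => rep (x j)) q1 (facts_le_triv q1) hq1'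
  refine ⟨q', hq', m, ?_⟩
  rw [RO.mem_iInf]
  intro L
  rw [RO.mem_iInf]
  intro hL
  rw [RO.mem_iSup]
  intro r hr
  obtain ⟨r', hr', i, hi, hj⟩ := hm L hL r hr
  refine ⟨r', hr', i, ?_⟩
  rw [RO.mem_iSup]
  intro r2 hr2
  refine ⟨r2, le_rfl, hi, ?_⟩
  rw [RO.mem_iInf]
  intro j
  rw [RO.mem_iInf]
  intro hjL
  have h6 : EqF ⊤ (rep (x j)) (S L i j) r2 := (hj j hjL).mono hr2
  rw [← mem_iffB_vl, hrep] at h6
  exact h6

theorem klb_RO : KLB (RO Cond) := by
  refine ⟨fun a j => vl (cGen a j), ?_, ?_⟩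
  · intro a N
    refine top_unique ?_
    intro p _
    rw [RO.mem_iSup]
    intro q hq
    obtain ⟨r, hr, hrt, -⟩ := ext_stem q a 0 ((q.st a).t ++ List.replicate (N + 2) true)
      (List.prefix_append _ _)
    refine ⟨r, hr, (q.st a).t.length + (N + 1), ?_⟩
    rw [RO.mem_iSup]
    intro r' hr'
    refine ⟨r', le_rfl, by omega, ?_⟩
    have h1 : (r.st a).t[(q.st a).t.length + (N + 1)]? = some true := by
      rw [hrt, List.getElem?_append_right (by omega)]
      rw [List.getElem?_replicate]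
      simp
    have h2 := (frc_cGen (z := ⊤) (WithTop.coe_lt_top a) r _ true h1).1 rfl
    exact Frc.mono h2 hr'
  · intro g hg
    obtain ⟨η, g', hF, hg'⟩ := exists_funName hg
    obtain ⟨ξ0, hξ0, h⟩ := KL_cond η g' hF
    refine ⟨ξ0, hξ0, fun a ha1 ha2 m => top_unique ?_⟩
    intro p _
    rw [RO.mem_iSup]
    intro q hq
    obtain ⟨r, hr, k, hk, w, hw, hj⟩ := h a ha1 ha2 q m
    refine ⟨r, hr, k, ?_⟩
    rw [RO.mem_iSup]
    intro r1 hr1
    refine ⟨r1, le_rfl, hk, ?_⟩
    rw [RO.mem_iSup]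
    intro r2 hr2
    have hr2r : Le ⊤ r2 r := le_trans (α := Cond) hr2 hr1
    refine ⟨r2, le_rfl, w, RO.mem_inf.mpr ⟨?_, ?_⟩⟩
    · rw [← hg' k w]
      exact Frc.mono hw hr2r
    · rw [RO.mem_iInf]
      intro j
      rw [RO.mem_iInf]
      intro hkj
      rw [RO.mem_iInf]
      intro hjw
      have h3 : Frc ⊤ (.neg (cGen a j)) r2 := Frc.mono (hj j hkj hjw) hr2r
      rw [← mem_vl, vl_neg] at h3
      exact h3

end Pool.Agent.Lib.MP_4d8715_gt.KR
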