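import Pool.Agent.Lib.MP_4d8715_gt.KR.R.Defs
import Pool.Agent.Lib.MP_4d8715_gt.KR.C.Cof
import Pool.Agent.Lib.MP_4d8715_gt.KR.C.Defs
import Pool.Agent.Lib.MP_4d8715_gt.KR.P.Names
import Pool.Agent.Lib.MP_4d8715_gt.KR.P.Gen

/-! # The Boolean algebra of the forcing notion (module R-VAL)

`p ≤ q` in `Cond` is `Le ⊤ p q`. `vl a` is the Boolean value of the term `a`. `vl_surj`: `exists_term_top`. `isFn_vl`: from
`vl_surj` (choose terms for all `l k v`), a common bound `ζ` of their atoms (`exists_below_fun`) and `frc_local`. -/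

namespace Pool.Agent.Lib.MP_4d8715_gt.KR

instance : Preorder Cond where
  le := Le ⊤
  le_refl := Le.refl ⊤
  le_trans _ _ _ := Le.trans

instance : Nonempty Cond := ⟨Cond.triv⟩

/-- the Boolean value of a term -/
def vl (a : Tm) : RO Cond where
  carrier := {p | Frc ⊤ a p}
  down := fun _ hp _ hq => Frc.mono hp hq
  reg := fun _ h => Frc.dense h

theorem mem_vl {a : Tm} {p : Cond} : p ∈ (vl a).carrier ↔ Frc ⊤ a p := Iff.rfl

theorem vl_surj (b : RO Cond) : ∃ a : Tm, vl a = b := by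
  obtain ⟨_, a, _, ha⟩ := exists_term_top b.carrier b.down
  refine ⟨a, RO.ext (Set.ext fun p => ?_)⟩
  rw [mem_vl, ha]
  exact ⟨fun h => b.reg p h, fun h q hq => ⟨q, Le.refl _ q, b.down p h q hq⟩⟩

theorem vl_neg (a : Tm) : vl (.neg a) = (vl a)ᶜ := by
  refine RO.ext (Set.ext fun p => ?_)
  rw [RO.mem_compl]
  exact Iff.rfl

theorem vl_sup (f : ℕ → Tm) : vl (.sup f) = ⨆ n, vl (f n) := by
  refine RO.ext (Set.ext fun p => ?_)
  rw [RO.mem_iSup, mem_vl, frc_sup]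
  exact Iff.rfl

theorem mem_iffB_vl {a b : Tm} {p : Cond} : p ∈ (iffB (vl a) (vl b)).carrier ↔ EqF ⊤ a b p := by
  unfold iffB
  rw [RO.mem_inf, RO.mem_himp, RO.mem_himp]
  exact ⟨fun h q hq => ⟨h.1 q hq, h.2 q hq⟩, fun h => ⟨fun q hq => (h q hq).1,
    fun q hq => (h q hq).2⟩⟩

/-- names of functions -/
theorem isFn_vl {ζ : Idx} {l : ℕ → ℕ → Tm} (h : FunName ζ l) : IsFn (fun k v => vl (l k v)) := by
  refine ⟨fun k => ?_, fun k v v' hv => ?_⟩
  · rw [eq_top_iff, RO.le_def]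
    intro p _
    rw [RO.mem_iSup]
    intro q _
    obtain ⟨r, hr, v, hv⟩ := h.dense k q
    refine ⟨glue ζ r q, glue_le ⊤ hr, v, ?_⟩
    rw [mem_vl, frc_local (h.below k v) le_top]
    exact Frc.mono hv (glue_le_left ζ r q)
  · rw [eq_bot_iff, RO.le_def]
    intro p hp
    rw [RO.mem_inf, mem_vl, mem_vl, frc_local (h.below k v) le_top,
      frc_local (h.below k v') le_top] at hp
    exact absurd (h.unique k v v' p hp.1 hp.2) hv

theorem exists_funName {l : ℕ → ℕ → RO Cond} (h : IsFn l) :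
    ∃ (ζ : Idx) (l' : ℕ → ℕ → Tm), FunName ζ l' ∧ ∀ k v, vl (l' k v) = l k v := by
  choose l' hl' using fun k v => vl_surj (l k v)
  obtain ⟨ζ, hζ⟩ := exists_below_fun l'
  refine ⟨ζ, l', ⟨hζ, fun k v v' p hp hp' => ?_, fun k p => ?_⟩, hl'⟩
  · by_contra hv
    rw [← frc_local (hζ k _) le_top] at hp hp'
    have h1 : p ∈ (l k v ⊓ l k v').carrier := by
      rw [RO.mem_inf, ← hl', ← hl']
      exact ⟨hp, hp'⟩
    rw [h.single k v v' hv] at h1
    exact RO.mem_bot p h1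
  · have h1 : p ∈ (⨆ v, l k v).carrier := by
      rw [h.total k]
      exact RO.mem_top p
    rw [RO.mem_iSup] at h1
    obtain ⟨r, hr, v, hv⟩ := h1 p (Le.refl _ p)
    refine ⟨r, Le.mono le_top hr, v, ?_⟩
    rw [← hl', mem_vl] at hv
    rwa [frc_local (hζ k v) le_top] at hv

end Pool.Agent.Lib.MP_4d8715_gt.KR
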